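import Pool.Agent.W477.GM.Stms

set_option autoImplicit false
set_option maxHeartbeats 1000000

namespace Pool.Agent.W477.GM.D381

open Pool.Agent.W477.GM

theorem dec_holds (h : P_EQ) (h1 : P_ACT) (h2 : P_FC) (h3 : P_HS) : P_DEC := by
  intro P _ _ S hS
  have hF := h2 P (HS S)
  have hH := h3 P S hS
  have main : ∀ φ v p a, (∀ i, Liv S a (v i)) → Fc (HS S) φ v p → Fc (HS S) φ v (S.rho a p) := by
    intro φ v p a hl hp
    refine hF.dense φ v _ fun q hq => ?_
    have hr : S.rho a q ≤ S.rho a p := by
      have := hS.mono a q (S.rho a p) hq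
      rwa [hS.rho_rho a a p le_rfl] at this
    obtain ⟨g, hg, hfix, s, hsp, hsq⟩ := hS.hom a p q hr
    have hs : Fc (HS S) φ v s := hF.mono φ v p s hsp hp
    have hgi : g⁻¹ ∈ S.G := hS.inv g hg
    have hfix' : ∀ u, S.rho a u = u → g⁻¹ u = u := fun u hu => by
      have h4 : g u = u := hfix u hu
      have h5 : g⁻¹ (g u) = u := g.symm_apply_apply u
      rwa [h4] at h5
    have hact : (fun i => act g⁻¹ (v i)) = v := funext fun i => hH.fix a g⁻¹ hfix' (v i) (hl i)
    have he := hF.equiv g⁻¹ (fun x hx => hH.act g⁻¹ hgi x hx)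
      (fun x hx => by rw [inv_inv]; exact hH.act g hg x hx) φ v s
    rw [hact] at he
    refine ⟨g⁻¹ s, ?_, he.2 hs⟩
    have h6 : g⁻¹ s ≤ g⁻¹ (g q) := g⁻¹.monotone hsq
    have h7 : g⁻¹ (g q) = q := g.symm_apply_apply q
    rwa [h7] at h6
  refine ⟨main, ?_, ?_⟩
  · intro x y p a hx hy hf
    exact main (.eq 0 1) (fun i => if i = 0 then x else y) p a
      (fun i => by
        by_cases hi : i = 0
        · simp only [hi, if_true]; exact hx
        · simp only [hi, if_false]; exact hy) hf
  · intro x y p a hx hy hf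
    exact main (.mem 0 1) (fun i => if i = 0 then x else y) p a
      (fun i => by
        by_cases hi : i = 0
        · simp only [hi, if_true]; exact hx
        · simp only [hi, if_false]; exact hy) hf

end Pool.Agent.W477.GM.D381
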